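import Pool.Agent.X130.TR.D
import Pool.Agent.W705.JR.Tup

/-!
# Random knots and links are separated by Vassiliev invariants with values in `ℤ/N`

Diagrams (starting library `Pool.Agent.H891R2.Jones.Diagram`): `Diagram P` (oriented link diagrams with
marked points `P`, planar or not), `Diagram.IsClosed` (its pieces fit together to closed oriented curves),
`Outer m` (the part of an oriented diagram outside a box through which `m` strands run, each of them in one
of the two directions), `Outer.close` (the box is filled with vertical strands).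
`Pool.Agent.W639.RB.Defs`: `Letter m` (the letters `σ_i^{±1}` of the braid group on `m` strands),
`diagram O w` (the diagram with the word `w : Fin n → Letter m` in the box of `O`);
`Pool.Agent.W639.RB.Knots`: `IsKnot w` (the permutation of `w` has a single cycle, i.e. the closure of the
braid word `w` is a knot); `Pool.Agent.W705.JR.Vas`: `JR.dia O w` is `diagram O w` as an element of `Dia`.
`Pool.Agent.Y463.UT.Defs`: `Law` (probability distributions with finite support on `ℤ`; `(μ j).A` is a finite
set containing the support), `prob μ E` (the probability of `E` for independent integers with the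
distributions `μ_j`), `tw i x` (the word `σ_{i_1}^{x_1} ⋯ σ_{i_k}^{x_k}`), `turns i μ ε` (the number of `j` such
that `|i_j - i_{j+1}| = 1` and no value of `x_j`, `x_{j+1}` has probability larger than `ε`).

Vassiliev invariants (starting library `Pool.Agent.H832R3.VJ.Defs`): `Dia` (an oriented diagram with the
finite set of its marked points), `IsVassiliev n v` (`v` is an integer valued Vassiliev invariant of oriented
links of order at most `n`).

New definitions (`Pool.Agent.X130.TR`): `diaW O w` (the diagram with a list of letters `w` in the box of `O`,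
as an element of `Dia`), `SeparatedMod N d X Y` (some integer valued Vassiliev invariant of order at most `d`
has values on `X` and `Y` which are not congruent modulo `N`; its reduction modulo `N` is a Vassiliev
invariant of order at most `d` with values in `ℤ/N`).

Proof.  The coefficient of `h^j` of the normalised bracket at `A = 1 + h` is an integer valued Vassiliev
invariant of order at most `j`, and these coefficients for `j ≤ d` determine a Laurent polynomial with
exponents in an interval of length `d` modulo `N`, for every `N`.  The probability that the normalised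
bracket is congruent to a given one modulo `N` is bounded by theorems of the starting library
(`Pool.Agent.Y463.MP.final`, `Pool.Agent.Y463.UT.final`).
-/

set_option autoImplicit false

namespace Pool.Agent.Results.MP_31fd3b_gt.ModularVassiliev

open Finset LaurentPolynomial Pool.Agent.H891R2.Jones Pool.Agent.W639.RB Pool.Agent.Y463.UT 
  Pool.Agent.H832R3.VJ Pool.Agent.X130.TR
open Pool.Agent.W705 (JR.dia)
open Pool.Agent.W705.JR (draw_size tuples cardle card_letter)
open Pool.Agent.Y463.MP (Pr knotsE)

theorem nsep {m n : ℕ} (N : ℕ) (O : Outer m) (Y : Dia) (w : Fin n → Letter m) (d : ℕ)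
    (hd : 8 * O.crossings.length + 4 * Nat.card O.P + (4 * m + 8) * n ≤ d)
    (hY : 8 * Y.D.crossings.length + 4 * Nat.card Y.P ≤ d) (h : ¬ SeparatedMod N d (JR.dia O w) Y) : 
    (N : ℤ[T;T⁻¹]) ∣ (diagram O w).fPoly - Y.D.fPoly := by
  by_contra hne
  apply h
  refine sepMod N (JR.dia O w) Y d ?_ hY hne
  obtain ⟨h1, h2⟩ := draw_size (toL w) O (toL_mem w)
  have h3 : (toL w).length = n := by simp [toL]
  rw [h3] at h1 h2
  have h4 : (JR.dia O w).D.crossings.length = (draw O (toL w)).crossings.length := rfl
  have h5 : Nat.card (JR.dia O w).P = Nat.card (draw O (toL w)).P := rfl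
  rw [h4, h5, h1, h2]
  nlinarith

theorem length_tw {m k : ℕ} (i : Fin k → Fin (m - 1)) (x : Fin k → ℤ) : 
    ((tw i x).length : ℤ) = ∑ j, |x j| := by
  unfold tw
  rw [List.length_flatten, List.map_ofFn, List.sum_ofFn]
  push_cast
  refine Finset.sum_congr rfl fun j _ => ?_
  simp only [Function.comp_apply]
  rcases x j with n | n
  · simp [Pool.Agent.Y463.SK.powW]
  · simp [Pool.Agent.Y463.SK.powW, Pool.Agent.Y463.SK.invW, Int.negSucc_eq]
    rw [abs_of_nonpos (by omega)]
    ring

theorem nsepW {m k : ℕ} (N : ℕ) (O : Outer m) (Y : Dia) (i : Fin k → Fin (m - 1)) (x : Fin k → ℤ) (S d : ℕ)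
    (hS : ∑ j, |x j| ≤ S)
    (hd : 8 * O.crossings.length + 4 * Nat.card O.P + (4 * m + 8) * S ≤ d)
    (hY : 8 * Y.D.crossings.length + 4 * Nat.card Y.P ≤ d) 
    (h : ¬ SeparatedMod N d (diaW O (tw i x)) Y) : 
    (N : ℤ[T;T⁻¹]) ∣ (Pool.Agent.Y463.SK.dia O (tw i x)).fPoly - Y.D.fPoly := by
  by_contra hne
  apply h
  refine sepMod N (diaW O (tw i x)) Y d ?_ hY hne
  obtain ⟨h1, h2⟩ := draw_size (m := m) (Pool.Agent.Y463.SK.toN (tw i x)) O 
    (Pool.Agent.Y463.SK.toN_lt (tw i x))
  have h7 : (Pool.Agent.Y463.SK.toN (tw i x)).length = (tw i x).length := by 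
    simp [Pool.Agent.Y463.SK.toN]
  rw [h7] at h1 h2
  have h3 := length_tw i x
  have h6 : (tw i x).length ≤ S := by
    have : ((tw i x).length : ℤ) ≤ S := by rw [h3]; exact hS
    exact_mod_cast this
  have h4 : (diaW O (tw i x)).D.crossings.length = 
    (draw O (Pool.Agent.Y463.SK.toN (tw i x))).crossings.length := rfl
  have h5 : Nat.card (diaW O (tw i x)).P = Nat.card (draw O (Pool.Agent.Y463.SK.toN (tw i x))).P := rfl
  rw [h4, h5, h1, h2]
  nlinarith

open Classical in
theorem count {m : ℕ} (hm : 3 ≤ m) : ∃ (C r : ℝ), 0 ≤ C ∧ 0 < r ∧ r < 1 ∧ 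
    (∀ N : ℕ, 2 ≤ N → ∀ (O : Outer m) (g : ℤ[T;T⁻¹]) (n : ℕ), 
      ((univ.filter (fun w : Fin n → Letter m => 
        (N : ℤ[T;T⁻¹]) ∣ (diagram O w).fPoly - g)).card : ℝ) ≤ C * r ^ n * ((2 * (m - 1) : ℕ) : ℝ) ^ n) ∧ 
    (∀ N : ℕ, 2 ≤ N → ∀ (O : Outer m) (g : ℤ[T;T⁻¹]) (n : ℕ), 
      Pr (fun _ => 1 / ((2 * (m - 1) : ℕ) : ℝ)) n (fun w => (N : ℤ[T;T⁻¹]) ∣ (diagram O w).fPoly - g) ≤ 
        C * r ^ n) := by
  have hD0 : (0:ℝ) < ((2 * (m - 1) : ℕ) : ℝ) := by
    have : 0 < 2 * (m - 1) := by omega
    exact_mod_cast this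
  have hp : ∀ x : Letter m, (0:ℝ) < (fun _ => 1 / ((2 * (m - 1) : ℕ) : ℝ)) x := fun _ => by positivity
  have hs : ∑ x : Letter m, (fun _ => 1 / ((2 * (m - 1) : ℕ) : ℝ)) x = 1 := by
    rw [Finset.sum_const, Finset.card_univ, Pool.Agent.W705.JR.card_letter, nsmul_eq_mul]
    field_simp
  obtain ⟨r, hr0, hr1, ⟨C1, h1⟩, _⟩ := Pool.Agent.Y463.MP.final hm _ hp hs
  have key : ∀ N : ℕ, 2 ≤ N → ∀ (O : Outer m) (g : ℤ[T;T⁻¹]) (n : ℕ), 
      Pr (fun _ => 1 / ((2 * (m - 1) : ℕ) : ℝ)) n (fun w => (N : ℤ[T;T⁻¹]) ∣ (diagram O w).fPoly - g) ≤ 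
        max C1 0 * r ^ n := by
    intro N hN O g n
    exact (h1 N hN O g n).trans (mul_le_mul_of_nonneg_right (le_max_left _ _) (by positivity))
  refine ⟨max C1 0, r, le_max_right _ _, hr0, hr1, ?_, key⟩
  intro N hN O g n
  have h2 := key N hN O g n
  set D : ℝ := ((2 * (m - 1) : ℕ) : ℝ) with hD
  have h3 : ((univ.filter (fun w : Fin n → Letter m => 
        (N : ℤ[T;T⁻¹]) ∣ (diagram O w).fPoly - g)).card : ℝ) * (1 / D) ^ n = 
      Pr (fun _ => 1 / D) n (fun w => (N : ℤ[T;T⁻¹]) ∣ (diagram O w).fPoly - g) := by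
    unfold Pool.Agent.Y463.MP.Pr
    rw [← nsmul_eq_mul, ← Finset.sum_const, Finset.sum_filter]
    refine Finset.sum_congr rfl fun w _ => ?_
    split_ifs
    · rw [Finset.prod_const, Finset.card_univ, Fintype.card_fin]
    · rfl
  have hDn : (0:ℝ) < D ^ n := by positivity
  rw [← h3, div_pow, one_pow, mul_one_div, div_le_iff₀ hDn] at h2
  exact h2

open Classical in
/-- Let `m ≥ 3`.  Words are drawn in boxes with `m` strands of oriented link diagrams (with outsides `O`);
`c` denotes numbers of crossings and `p` numbers of marked points.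

* There are `C`, `r < 1` and `l0`, depending on `m` only, such that for all `N ≥ 2`:
  - for all outsides `O`, all diagrams `Y`, all `n` and all `d` with `8 c(O) + 4 p(O) + (4 m + 8) n ≤ d` and
    `8 c(Y) + 4 p(Y) ≤ d`: at most `C r^n (2m-2)^n` of the `(2m-2)^n` words of length `n` in the letters
    `σ_i^{±1}` give a diagram which is not separated from `Y` by Vassiliev invariants of order at most `d` with
    values in `ℤ/N`; for `n ≥ l0`, `n ≡ m - 1` modulo 2, also among the words whose closure is a knot their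
    proportion is at most `C r^n`;
  - for all `M` and all outsides `O_1, …, O_M` with `8 c + 4 p ≤ B`, if `M` words of length `n` are chosen
    independently, then the diagrams are pairwise separated by Vassiliev invariants of order at most
    `B + (4 m + 8) n` with values in `ℤ/N` with probability at least `1 - M² C r^n`; the same holds for words
    whose closures are knots (`n ≥ l0`, `n ≡ m - 1` modulo 2).
* There is a `C`, depending on `m` only, such that the following holds for all `N ≥ 2`.  Let `O` be an outside,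
  `Y` a diagram, `i_1, …, i_k` places, `x_1, …, x_k ∈ ℤ` independent random exponents (finite supports, arbitrary
  distributions) with `|x_1| + ⋯ + |x_k| ≤ S`, let `8 c(O) + 4 p(O) + (4 m + 8) S ≤ d`,
  `8 c(Y) + 4 p(Y) ≤ d`, and let `ε > 0` and `u` be such that for at least `u (m! + 1) (m! + 2)` values of `j` the
  places `i_j` and `i_{j+1}` are neighbouring and no value of `x_j` or `x_{j+1}` has probability larger than
  `ε`.  With probability at least `1 - C (8ε)^{u/2}` the diagram with `σ_{i_1}^{x_1} ⋯ σ_{i_k}^{x_k}` in the box of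
  `O` is separated from `Y` by Vassiliev invariants of order at most `d` with values in `ℤ/N`. -/
theorem result (m : ℕ) (hm : 3 ≤ m) :
    (∃ (C r : ℝ) (l0 : ℕ), 0 < r ∧ r < 1 ∧ ∀ N : ℕ, 2 ≤ N → 
      (∀ (O : Outer m) (Y : Dia) (n d : ℕ), 
        8 * O.crossings.length + 4 * Nat.card O.P + (4 * m + 8) * n ≤ d → 
        8 * Y.D.crossings.length + 4 * Nat.card Y.P ≤ d → 
        ((univ.filter (fun w : Fin n → Letter m => ¬ SeparatedMod N d (JR.dia O w) Y)).card : ℝ) ≤ 
          C * r ^ n * ((2 * (m - 1) : ℕ) : ℝ) ^ n ∧ 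
        (l0 ≤ n → n % 2 = (m - 1) % 2 → 
          ((univ.filter (fun w : Fin n → Letter m => 
            IsKnot w ∧ ¬ SeparatedMod N d (JR.dia O w) Y)).card : ℝ) ≤ 
            C * r ^ n * (univ.filter (fun w : Fin n → Letter m => IsKnot w)).card)) ∧
      (∀ (M n B : ℕ) (O : Fin M → Outer m), 
        (∀ i, 8 * (O i).crossings.length + 4 * Nat.card (O i).P ≤ B) → 
        ((univ.filter (fun W : Fin M → Fin n → Letter m => ∃ i j, i ≠ j ∧ 
          ¬ SeparatedMod N (B + (4 * m + 8) * n) (JR.dia (O i) (W i)) (JR.dia (O j) (W j)))).card : ℝ) ≤ 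
            (M:ℝ) ^ 2 * (C * r ^ n) * (((2 * (m - 1) : ℕ) : ℝ) ^ n) ^ M ∧ 
        (l0 ≤ n → n % 2 = (m - 1) % 2 → 
          ((univ.filter (fun W : Fin M → {w : Fin n → Letter m // IsKnot w} => ∃ i j, i ≠ j ∧ 
            ¬ SeparatedMod N (B + (4 * m + 8) * n) (JR.dia (O i) (W i).1) (JR.dia (O j) (W j).1))).card : 
              ℝ) ≤ 
              (M:ℝ) ^ 2 * (C * r ^ n) * (Fintype.card {w : Fin n → Letter m // IsKnot w} : ℝ) ^ M))) ∧ 
    (∃ C : ℝ, ∀ N : ℕ, 2 ≤ N → ∀ (O : Outer m) (Y : Dia) (k : ℕ) (i : Fin k → Fin (m - 1)) 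
      (μ : Fin k → Law) (ε : ℝ) (S d : ℕ), 0 < ε → 
        (∀ x ∈ Fintype.piFinset (fun j => (μ j).A), ∑ j, |x j| ≤ S) → 
        8 * O.crossings.length + 4 * Nat.card O.P + (4 * m + 8) * S ≤ d → 
        8 * Y.D.crossings.length + 4 * Nat.card Y.P ≤ d → 
        ∀ u : ℕ, u * ((m.factorial + 1) * (m.factorial + 2)) ≤ turns i μ ε → 
          prob μ (fun x => ¬ SeparatedMod N d (diaW O (tw i x)) Y) ≤ C * (8 * ε) ^ ((u : ℝ) / 2)) := by
  constructor
  · obtain ⟨C, r, hC, h0, h1, h, hPr⟩ := count hm
    obtain ⟨l0, c, hc, hk⟩ := knotsE (m := m) (by omega) r h0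
    have hpow : ∀ n : ℕ, 0 ≤ r ^ n := fun n => by positivity
    have hcard : ∀ n : ℕ, (0:ℝ) ≤ (univ.filter (fun w : Fin n → Letter m => IsKnot w)).card := 
      fun n => by positivity
    have key : ∀ N : ℕ, 2 ≤ N → ∀ (O : Outer m) (Y : Dia) (n d : ℕ), 
        8 * O.crossings.length + 4 * Nat.card O.P + (4 * m + 8) * n ≤ d → 
        8 * Y.D.crossings.length + 4 * Nat.card Y.P ≤ d → 
        ((univ.filter (fun w : Fin n → Letter m => ¬ SeparatedMod N d (JR.dia O w) Y)).card : ℝ) ≤ 
          max C (c * C) * r ^ n * ((2 * (m - 1) : ℕ) : ℝ) ^ n := by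
      intro N hN O Y n d hd hY
      refine le_trans ?_ ((h N hN O Y.D.fPoly n).trans ?_)
      · norm_cast
        refine Finset.card_le_card fun w hw => ?_
        rw [Finset.mem_filter] at hw ⊢
        exact ⟨hw.1, nsep N O Y w d hd hY hw.2⟩
      · gcongr
        exact le_max_left _ _
    have key' : ∀ N : ℕ, 2 ≤ N → ∀ (O : Outer m) (Y : Dia) (n d : ℕ), 
        8 * O.crossings.length + 4 * Nat.card O.P + (4 * m + 8) * n ≤ d → 
        8 * Y.D.crossings.length + 4 * Nat.card Y.P ≤ d → l0 ≤ n → n % 2 = (m - 1) % 2 → 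
          ((univ.filter (fun w : Fin n → Letter m => 
            IsKnot w ∧ ¬ SeparatedMod N d (JR.dia O w) Y)).card : ℝ) ≤ 
            max C (c * C) * r ^ n * (univ.filter (fun w : Fin n → Letter m => IsKnot w)).card := by
      intro N hN O Y n d hd hY hn hpar
      have h2 := hk n C _ hn hpar hC (hPr N hN O Y.D.fPoly n)
      refine le_trans ?_ (h2.trans ?_)
      · norm_cast
        refine Finset.card_le_card fun w hw => ?_
        rw [Finset.mem_filter] at hw ⊢
        exact ⟨hw.1, hw.2.1, nsep N O Y w d hd hY hw.2.2⟩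
      · gcongr
        exact le_max_right _ _
    have hmax : 0 ≤ max C (c * C) := le_trans hC (le_max_left _ _)
    have hsz : ∀ {n : ℕ} (O : Outer m) (w : Fin n → Letter m), 
        8 * (JR.dia O w).D.crossings.length + 4 * Nat.card (JR.dia O w).P = 
          8 * O.crossings.length + 4 * Nat.card O.P + (4 * m + 8) * n := by
      intro n O w
      obtain ⟨h1, h2⟩ := draw_size (toL w) O (toL_mem w)
      have h3 : (toL w).length = n := by simp [toL]
      rw [h3] at h1 h2
      have h4 : (JR.dia O w).D.crossings.length = (draw O (toL w)).crossings.length := rfl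
      have h5 : Nat.card (JR.dia O w).P = Nat.card (draw O (toL w)).P := rfl
      rw [h4, h5, h1, h2]
      ring
    refine ⟨max C (c * C), r, l0, h0, h1, fun N hN => ⟨fun O Y n d hd hY => 
      ⟨key N hN O Y n d hd hY, key' N hN O Y n d hd hY⟩, fun M n B O hB => ⟨?_, fun hn hpar => ?_⟩⟩⟩
    · have h2 := tuples (α := Fin n → Letter m) M 
        (fun i j w w' => ¬ SeparatedMod N (B + (4 * m + 8) * n) (JR.dia (O i) w) (JR.dia (O j) w'))
        (max C (c * C) * r ^ n) (by positivity) (by
          intro i j _ y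
          have h3 := key N hN (O i) (JR.dia (O j) y) n (B + (4 * m + 8) * n) (by
            have := hB i
            omega) (by
            rw [hsz]
            have := hB j
            omega)
          have h4 : (Fintype.card (Fin n → Letter m) : ℝ) = ((2 * (m - 1) : ℕ) : ℝ) ^ n := by
            rw [Fintype.card_fun, Fintype.card_fin, card_letter]
            push_cast
            rfl
          rw [h4]
          exact le_trans (cardle _ _ _ _ id Function.injective_id fun w hw => hw) h3)
      have h4 : (Fintype.card (Fin n → Letter m) : ℝ) = ((2 * (m - 1) : ℕ) : ℝ) ^ n := by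
        rw [Fintype.card_fun, Fintype.card_fin, card_letter]
        push_cast
        rfl
      rw [h4] at h2
      exact le_trans (cardle _ _ _ _ id Function.injective_id fun w hw => hw) h2
    · have h2 := tuples (α := {w : Fin n → Letter m // IsKnot w}) M 
        (fun i j w w' => ¬ SeparatedMod N (B + (4 * m + 8) * n) (JR.dia (O i) w.1) (JR.dia (O j) w'.1))
        (max C (c * C) * r ^ n) (by positivity) (by
          intro i j _ y
          have h3 := key' N hN (O i) (JR.dia (O j) y.1) n (B + (4 * m + 8) * n) (by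
            have := hB i
            omega) (by
            rw [hsz]
            have := hB j
            omega) hn hpar
          have h4 : Fintype.card {w : Fin n → Letter m // IsKnot w} = 
              (univ.filter (fun w : Fin n → Letter m => IsKnot w)).card := Fintype.card_subtype _
          rw [h4]
          exact le_trans (cardle _ _ _ _ Subtype.val Subtype.val_injective fun w hw => ⟨w.2, hw⟩) h3)
      exact le_trans (cardle _ _ _ _ id Function.injective_id fun w hw => hw) h2
  · refine ⟨CU m, fun N hN O Y k i μ ε S d hε hS hd hY u hu => ?_⟩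
    refine (prob_mono μ _ _ (fun x hx hns => ?_)).trans 
      (Pool.Agent.Y463.UT.final hm N hN O Y.D.fPoly k i μ ε hε u hu)
    exact nsepW N O Y i x S d (hS x hx) hd hY hns

end Pool.Agent.Results.MP_31fd3b_gt.ModularVassiliev
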