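import Pool.Agent.H953R3.Q2.Fin2

/-!
# Almost all pairs of links in twist families are separated by Vassiliev invariants of order two

Diagrams: `Pool.Agent.H891R2.Jones.Diagram` (`Crossing`, `Diagram`: oriented link diagrams with
marked points; `Diagram.IsClosed`) and `Pool.Agent.H891R2.MT.Defs` (`Ribbon k`: a ribbon graph with
`k` edges, given by the rotation system on its `2 k` darts; `Ribbon.verts`, `Ribbon.comps`;
`Ribbon.Planar`: a connected plane graph; `Ribbon.link n`: the unoriented link diagram which is the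
boundary of the surface made of one disc for every vertex and, for every edge `e`, a band with `n e`
half twists, that is, a row of `|n e|` crossings; `Orients D U`: `D` is the unoriented diagram `U`
with directions).

`Pool.Agent.H953R3.Q2.Fin2`: `Balanced M F A`: for every edge `e ∈ F` the set `A e` contains either
no even numbers or at least `M`, and either no odd numbers or at least `M`.

Vassiliev invariants: `Pool.Agent.H832R3.VJ.Defs` (`Dia`: an oriented diagram with the finite set of
its marked points; `IsVassiliev n v`: `v` is an invariant of oriented links of order at most `n`;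
`Separated d X Y`: some integer valued Vassiliev invariant of order at most `d` has different values
on `X` and `Y`).
-/

set_option autoImplicit false

namespace Pool.Agent.Results.MP_31fd3b_gt.OrderTwoPairs

open Finset LaurentPolynomial Pool.Agent.H891R2.Jones Pool.Agent.H891R2.MT Pool.Agent.H953R3.Q2
  Pool.Agent.H832R3.VJ

/-- Two twisted diagrams, with some directions, are not separated by the Vassiliev invariants of
order at most two. -/
def Close {k k' : ℕ} (Γ : Ribbon k) (Γ' : Ribbon k') (n : Fin k → ℤ) (n' : Fin k' → ℤ) : Prop :=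
  ∃ (D : Diagram (Ribbon.Pt n)) (D' : Diagram (Ribbon.Pt n')), Orients D (Γ.link n) ∧
    D.IsClosed ∧ Orients D' (Γ'.link n') ∧ D'.IsClosed ∧
    ¬ Separated 2 ⟨_, inferInstance, D⟩ ⟨_, inferInstance, D'⟩

lemma Close.symm {k k' : ℕ} {Γ : Ribbon k} {Γ' : Ribbon k'} {n : Fin k → ℤ} {n' : Fin k' → ℤ}
    (h : Close Γ Γ' n n') : Close Γ' Γ n' n := by
  obtain ⟨D, D', h1, h2, h3, h4, h5⟩ := h
  refine ⟨D', D, h3, h4, h1, h2, fun h6 => h5 ?_⟩
  obtain ⟨m, hm, v, hv, hne⟩ := h6
  exact ⟨m, hm, v, hv, fun h => hne h.symm⟩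

/-- The count of the tuples with two related members. -/
lemma tuple_count {r : ℕ} {α : Fin r → Type} [∀ i, DecidableEq (α i)] (S : ∀ i, Finset (α i))
    {i j : Fin r} (hij : i ≠ j) (R : α i → α j → Prop) [∀ x y, Decidable (R x y)] {M : ℕ}
    (h : M * #{p ∈ S i ×ˢ S j | R p.1 p.2} ≤ 2 * (#(S i) * #(S j))) :
    M * #{p ∈ Fintype.piFinset S | R (p i) (p j)} ≤ 2 * ∏ l, #(S l) := by
  set P : ℕ := ∏ l ∈ (univ.erase i).erase j, #(S l) with hP
  have hprod : ∏ l, #(S l) = #(S i) * (#(S j) * P) := by
    rw [hP, Finset.mul_prod_erase (univ.erase i) (fun l => #(S l))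
      (mem_erase.2 ⟨hij.symm, mem_univ j⟩),
      Finset.mul_prod_erase univ (fun l => #(S l)) (mem_univ i)]
  set B : Finset (α i × α j) := {p ∈ S i ×ˢ S j | R p.1 p.2} with hB
  have h1 := Finset.card_eq_sum_card_fiberwise
    (s := ({p ∈ Fintype.piFinset S | R (p i) (p j)} : Finset (∀ l, α l))) (t := B)
    (f := fun p => (p i, p j)) (fun p hp => by
      rw [Finset.mem_coe, Finset.mem_filter, Fintype.mem_piFinset] at hp
      rw [hB, Finset.mem_coe, Finset.mem_filter, Finset.mem_product]
      exact ⟨⟨hp.1 i, hp.1 j⟩, hp.2⟩)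
  have h2 : ∀ q ∈ B, #{p ∈ ({p ∈ Fintype.piFinset S | R (p i) (p j)} : Finset (∀ l, α l)) |
      (p i, p j) = q} ≤ P := by
    intro q _
    have h3 : ({p ∈ ({p ∈ Fintype.piFinset S | R (p i) (p j)} : Finset (∀ l, α l)) |
        (p i, p j) = q} : Finset (∀ l, α l)) ⊆
        Fintype.piFinset (Function.update (Function.update S i {q.1}) j {q.2}) := by
      intro p hp
      rw [Finset.mem_filter, Finset.mem_filter, Fintype.mem_piFinset] at hp
      obtain ⟨⟨hp, -⟩, hq⟩ := hp
      rw [Fintype.mem_piFinset]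
      intro l
      by_cases hl : l = j
      · subst hl
        rw [Function.update_self, Finset.mem_singleton, ← hq]
      · rw [Function.update_of_ne hl]
        by_cases hl2 : l = i
        · subst hl2
          rw [Function.update_self, Finset.mem_singleton, ← hq]
        · rw [Function.update_of_ne hl2]
          exact hp l
    refine (Finset.card_le_card h3).trans (le_of_eq ?_)
    rw [Fintype.card_piFinset, ← Finset.mul_prod_erase _ _ (mem_univ i),
      ← Finset.mul_prod_erase _ _ (mem_erase.2 ⟨hij.symm, mem_univ j⟩), Function.update_self,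
      Function.update_of_ne hij, Function.update_self, Finset.card_singleton,
      Finset.card_singleton, one_mul, one_mul, hP]
    refine Finset.prod_congr rfl fun l hl => ?_
    rw [Finset.mem_erase, Finset.mem_erase] at hl
    rw [Function.update_of_ne hl.1, Function.update_of_ne hl.2.1]
  have h4 : #{p ∈ Fintype.piFinset S | R (p i) (p j)} ≤ #B * P := by
    rw [h1]
    refine (Finset.sum_le_sum h2).trans (le_of_eq ?_)
    rw [Finset.sum_const, smul_eq_mul]
  calc M * #{p ∈ Fintype.piFinset S | R (p i) (p j)} ≤ M * (#B * P) := Nat.mul_le_mul_left _ h4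
    _ = (M * #B) * P := by ring
    _ ≤ (2 * (#(S i) * #(S j))) * P := Nat.mul_le_mul_right _ h
    _ = 2 * ∏ l, #(S l) := by rw [hprod]; ring

open Classical in
/-- **Pairs and tuples of twisted links, Vassiliev invariants of order at most two.** For a ribbon
graph `Γ` with `k` edges let `D(n)`, `n ∈ ℤ^k`, be the link diagram with `|n e|` crossings on the
edge `e`.

* Let `Γ` be a connected plane graph which is not a tree, let `F` be a set of its edges such that
  the other edges form a forest, and let `A e ⊂ ℤ` be finite sets such that, for `e ∈ F`, the even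
  (odd) elements of `A e` are none or at least `M`. Let `Γ'` be any other ribbon graph and let
  `A' e ⊂ ℤ` be arbitrary finite sets. Among the pairs of links `D(n)`, `D'(n')`, `n ∈ ∏ A e`,
  `n' ∈ ∏ A' e`, the proportion of those which, for some directions, are not separated by the
  Vassiliev invariants of order at most `2` is at most `2 / M`.
* Let `Γ i`, `F i`, `A i`, `i < r`, be as `Γ`, `F`, `A`. All the tuples `(D_i(n i))_i`,
  `n i ∈ ∏ A i e`, except a proportion of at most `r (r - 1) / M`, consist of links which are, for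
  all directions, pairwise separated by the Vassiliev invariants of order at most `2`. -/
theorem result :
    (∀ (k k' : ℕ) (Γ : Ribbon k) (Γ' : Ribbon k'), Γ.Planar → Γ.verts ≤ k → 0 < k' →
      ∀ F : Finset (Fin k), Fᶜ.card + Γ.comps Fᶜ = Γ.verts →
      ∀ (M : ℕ) (A : Fin k → Finset ℤ) (A' : Fin k' → Finset ℤ), Balanced M F A →
      M * #{p ∈ Fintype.piFinset A ×ˢ Fintype.piFinset A' | Close Γ Γ' p.1 p.2} ≤
        2 * ((∏ e, (A e).card) * ∏ e, (A' e).card)) ∧
    (∀ (r : ℕ) (k : Fin r → ℕ) (Γ : ∀ i, Ribbon (k i)), (∀ i, (Γ i).Planar) →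
      (∀ i, (Γ i).verts ≤ k i) → ∀ F : ∀ i, Finset (Fin (k i)),
      (∀ i, (F i)ᶜ.card + (Γ i).comps (F i)ᶜ = (Γ i).verts) →
      ∀ (M : ℕ) (A : ∀ i, Fin (k i) → Finset ℤ), (∀ i, Balanced M (F i) (A i)) →
      M * #{n ∈ Fintype.piFinset (fun i => Fintype.piFinset (A i)) |
          ∃ i j, i ≠ j ∧ Close (Γ i) (Γ j) (n i) (n j)} ≤
        r * (r - 1) * ∏ i, ∏ e, (A i e).card) := by
  have hpair : ∀ (k k' : ℕ) (Γ : Ribbon k) (Γ' : Ribbon k'), Γ.Planar → Γ.verts ≤ k → 0 < k' →
      ∀ F : Finset (Fin k), Fᶜ.card + Γ.comps Fᶜ = Γ.verts →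
      ∀ (M : ℕ) (A : Fin k → Finset ℤ) (A' : Fin k' → Finset ℤ), Balanced M F A →
      M * #{p ∈ Fintype.piFinset A ×ˢ Fintype.piFinset A' | Close Γ Γ' p.1 p.2} ≤
        2 * ((∏ e, (A e).card) * ∏ e, (A' e).card) :=
    fun k k' Γ Γ' hΓ hv hk' F hF M A A' hA => count_pairs Γ hΓ hv F hF Γ' hk' M A hA A'
  refine ⟨hpair, fun r k Γ hΓ hv F hF M A hA => ?_⟩
  set S : ∀ i, Finset (Fin (k i) → ℤ) := fun i => Fintype.piFinset (A i) with hS
  have hcard : ∏ l, #(S l) = ∏ i, ∏ e, (A i e).card :=
    Finset.prod_congr rfl fun i _ => Fintype.card_piFinset _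
  have hk : ∀ i, 0 < k i := fun i => pos_of_planar (Γ i) (hΓ i)
  have h1 : ∀ q ∈ (univ : Finset (Fin r × Fin r)).filter (fun q => q.1 < q.2),
      M * #{n ∈ Fintype.piFinset S | Close (Γ q.1) (Γ q.2) (n q.1) (n q.2)} ≤
        2 * ∏ l, #(S l) := by
    intro q hq
    rw [Finset.mem_filter] at hq
    refine tuple_count (α := fun i => Fin (k i) → ℤ) S hq.2.ne
      (fun x y => Close (Γ q.1) (Γ q.2) x y) ?_
    have h2 := hpair (k q.1) (k q.2) (Γ q.1) (Γ q.2) (hΓ q.1) (hv q.1) (hk q.2) (F q.1) (hF q.1) M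
      (A q.1) (A q.2) (hA q.1)
    rw [← Fintype.card_piFinset, ← Fintype.card_piFinset] at h2
    exact h2
  have hsub : ({n ∈ Fintype.piFinset S | ∃ i j, i ≠ j ∧ Close (Γ i) (Γ j) (n i) (n j)} :
      Finset (∀ i, Fin (k i) → ℤ)) ⊆
      ((univ : Finset (Fin r × Fin r)).filter (fun q => q.1 < q.2)).biUnion (fun q =>
        {n ∈ Fintype.piFinset S | Close (Γ q.1) (Γ q.2) (n q.1) (n q.2)}) := by
    intro n hn
    rw [Finset.mem_filter] at hn
    obtain ⟨hn, i, j, hij, hc⟩ := hn
    rw [Finset.mem_biUnion]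
    rcases lt_or_gt_of_ne hij with h | h
    · exact ⟨(i, j), Finset.mem_filter.2 ⟨mem_univ _, h⟩, Finset.mem_filter.2 ⟨hn, hc⟩⟩
    · exact ⟨(j, i), Finset.mem_filter.2 ⟨mem_univ _, h⟩, Finset.mem_filter.2 ⟨hn, hc.symm⟩⟩
  have hnum : #((univ : Finset (Fin r × Fin r)).filter (fun q => q.1 < q.2)) * 2 =
      r * (r - 1) := by
    have h3 : #((univ : Finset (Fin r × Fin r)).filter (fun q => q.1 < q.2)) +
        #((univ : Finset (Fin r × Fin r)).filter (fun q => q.2 < q.1)) =
        #((univ : Finset (Fin r × Fin r)).filter (fun q => q.1 ≠ q.2)) := by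
      rw [← Finset.card_union_of_disjoint]
      · congr 1
        ext q
        simp only [Finset.mem_union, Finset.mem_filter, mem_univ, true_and]
        constructor
        · rintro (h | h)
          · exact h.ne
          · exact h.ne'
        · intro h
          exact lt_or_gt_of_ne h
      · rw [Finset.disjoint_filter]
        intro q _ h h'
        exact absurd h (not_lt.2 h'.le)
    have h4 : #((univ : Finset (Fin r × Fin r)).filter (fun q => q.2 < q.1)) =
        #((univ : Finset (Fin r × Fin r)).filter (fun q => q.1 < q.2)) := by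
      refine Finset.card_bij (fun q _ => (q.2, q.1)) ?_ ?_ ?_
      · intro q hq
        rw [Finset.mem_filter] at hq ⊢
        exact ⟨mem_univ _, hq.2⟩
      · intro q _ q' _ h
        rw [Prod.mk.injEq] at h
        exact Prod.ext h.2 h.1
      · intro q hq
        rw [Finset.mem_filter] at hq
        exact ⟨(q.2, q.1), Finset.mem_filter.2 ⟨mem_univ _, hq.2⟩, rfl⟩
    have h5 : #((univ : Finset (Fin r × Fin r)).filter (fun q => q.1 ≠ q.2)) = r * (r - 1) := by
      have h6 : (univ : Finset (Fin r × Fin r)).filter (fun q => q.1 ≠ q.2) =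
          (univ : Finset (Fin r)).offDiag := by
        ext q
        simp
      rw [h6, Finset.offDiag_card, Finset.card_univ, Fintype.card_fin, Nat.mul_sub, mul_one]
    omega
  calc M * #{n ∈ Fintype.piFinset S | ∃ i j, i ≠ j ∧ Close (Γ i) (Γ j) (n i) (n j)}
      ≤ M * ∑ q ∈ (univ : Finset (Fin r × Fin r)).filter (fun q => q.1 < q.2),
          #{n ∈ Fintype.piFinset S | Close (Γ q.1) (Γ q.2) (n q.1) (n q.2)} :=
        Nat.mul_le_mul_left _ ((Finset.card_le_card hsub).trans Finset.card_biUnion_le)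
    _ = ∑ q ∈ (univ : Finset (Fin r × Fin r)).filter (fun q => q.1 < q.2),
          M * #{n ∈ Fintype.piFinset S | Close (Γ q.1) (Γ q.2) (n q.1) (n q.2)} := by
        rw [Finset.mul_sum]
    _ ≤ ∑ _q ∈ (univ : Finset (Fin r × Fin r)).filter (fun q => q.1 < q.2), 2 * ∏ l, #(S l) :=
        Finset.sum_le_sum h1
    _ = r * (r - 1) * ∏ i, ∏ e, (A i e).card := by
        rw [Finset.sum_const, smul_eq_mul, ← mul_assoc, hnum, hcard]

end Pool.Agent.Results.MP_31fd3b_gt.OrderTwoPairs
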