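import Pool.Agent.X130.TR.C

/-!
# Links with random twist regions are separated by Vassiliev invariants of an order independent of the exponents

Diagrams (starting library `Pool.Agent.H891R2.Jones.Diagram`): `Diagram P` (oriented link diagrams with
marked points `P`, planar or not), `Diagram.IsClosed` (its pieces fit together to closed oriented curves),
`Outer m` (the part of an oriented diagram outside a box through which `m` strands run, each of them in one
of the two directions: `O.up`), `Outer.close` (the box is filled with vertical strands).
`Pool.Agent.W639.RB.Defs`: `Letter m` (the letters `σ_i^{±1}` of the braid group on `m` strands).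
`Pool.Agent.Y463.SK.Defs`: `dia O w` (the diagram with the word `w` in the box of `O`), `permW w` (the
permutation of the strands of a word).  `Pool.Agent.Y463.UT.Defs`: `Law` (probability distributions with
finite support on `ℤ`), `prob μ E` (the probability of `E` for independent integers with the distributions
`μ_j`), `tw i x` (the word `σ_{i_1}^{x_1} ⋯ σ_{i_k}^{x_k}`), `turns i μ ε` (the number of `j` such that
`|i_j - i_{j+1}| = 1` and no value of `x_j`, `x_{j+1}` has probability larger than `ε`).

Vassiliev invariants (starting library `Pool.Agent.H832R3.VJ.Defs`): `Dia` (an oriented diagram with the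
finite set of its marked points), `Separated d X Y` (some integer valued Vassiliev invariant of oriented
links of order at most `d` has different values on `X` and `Y`).

New definitions (`Pool.Agent.X130.TR`): `diaW O w` is `dia O w` as an element of `Dia`;
`ordB O k = 4^k (2 c + 4 p + (4 m + 2) k + 1)`, where `c` and `p` are the numbers of crossings and of marked
points of `O`; `probT μ E` (the probability of `E` for `M` independent `k`-tuples of independent integers
with the distributions `μ a j`).

Proof.  By the skein relation `(A + A⁻³) σ^x = A^x (σ + A⁻³) + (-A⁻³)^x (A - σ)` the bracket of the diagram with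
`k` twist regions becomes, after multiplication with `(A + A⁻³)^k`, a Laurent polynomial with at most
`ordB O k` terms, for all exponents; different Laurent polynomials with few terms are separated by
derivatives of small order at `A = 1`, which are Vassiliev invariants.  The probability of a given
normalised bracket is bounded by the library theorem `Pool.Agent.Y463.UT.final`.
-/

set_option autoImplicit false

namespace Pool.Agent.Results.MP_31fd3b_gt.RandomTwistTuples

open Finset LaurentPolynomial Pool.Agent.H891R2.Jones Pool.Agent.W639.RB Pool.Agent.Y463.SK 
  Pool.Agent.Y463.UT Pool.Agent.H832R3.VJ Pool.Agent.X130.TR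

/-- Let `m ≥ 3`.  `O` denotes outsides of a box with `m` strands; into the box we draw the words
`σ_{i_1}^{x_1} ⋯ σ_{i_k}^{x_k}`.

* If `O.close` is closed and the word respects the directions of the strands, for instance if all `x_j` are
  even, then the diagrams are closed, that is, diagrams of links (with even `x_j` all of them have the same
  connections as `O.close`: they are diagrams of knots if `O.close` is one).
* There is a constant `C`, depending on `m` only, such that the following holds.
  - Let `O` be an outside, `Y` a diagram with `c` crossings and `p` marked points, `i_1, …, i_k` places,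
    `x_1, …, x_k ∈ ℤ` independent random exponents (finite supports, arbitrary distributions), and let `ε > 0`
    and `u` be such that for at least `u (m! + 1) (m! + 2)` values of `j` the places `i_j` and `i_{j+1}` are
    neighbouring and no value of `x_j` or `x_{j+1}` has probability larger than `ε`.  With probability at
    least `1 - C (8ε)^{u/2}` the diagram is separated from `Y` by Vassiliev invariants of order at most
    `ordB O k + 2^k (2 c + 4 p + 1)`, a number which does not depend on the exponents and their
    distributions.
  - For `M` outsides `O_a` with `ordB (O_a) k ≤ B`, places `i_a` and distributions `μ_a` with the same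
    property, the `M` diagrams with independent random exponents in the boxes are pairwise separated by
    Vassiliev invariants of order at most `2 B` with probability at least `1 - M² C (8ε)^{u/2}`. -/
theorem result (m : ℕ) (hm : 3 ≤ m) : 
    (∀ (O : Outer m), O.close.IsClosed → ∀ w : List (Letter m), (∀ j, O.up (permW w j) = O.up j) → 
      (dia O w).IsClosed) ∧ 
    (∀ (k : ℕ) (i : Fin k → Fin (m - 1)) (x : Fin k → ℤ), (∀ j, Even (x j)) → permW (tw i x) = 1) ∧ 
    ∃ C : ℝ, 0 ≤ C ∧ 
      (∀ (O : Outer m) (Y : Dia) (k : ℕ) (i : Fin k → Fin (m - 1)) (μ : Fin k → Law) (ε : ℝ), 0 < ε → 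
        ∀ u : ℕ, u * ((m.factorial + 1) * (m.factorial + 2)) ≤ turns i μ ε → 
          prob μ (fun x => ¬ Separated 
              (ordB O k + 2 ^ k * (2 * Y.D.crossings.length + 4 * Nat.card Y.P + 1)) 
              (diaW O (tw i x)) Y) ≤ C * (8 * ε) ^ ((u : ℝ) / 2)) ∧ 
      (∀ (M k B : ℕ) (O : Fin M → Outer m) (i : Fin M → Fin k → Fin (m - 1)) (μ : Fin M → Fin k → Law) 
        (ε : ℝ), 0 < ε → (∀ a, ordB (O a) k ≤ B) → 
        ∀ u : ℕ, (∀ a, u * ((m.factorial + 1) * (m.factorial + 2)) ≤ turns (i a) (μ a) ε) → 
          probT μ (fun X => ∃ a b, a ≠ b ∧ 
              ¬ Separated (2 * B) (diaW (O a) (tw (i a) (X a))) (diaW (O b) (tw (i b) (X b)))) ≤ 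
            (M : ℝ) ^ 2 * (C * (8 * ε) ^ ((u : ℝ) / 2))) := by
  refine ⟨fun O hO w hw => Pool.Agent.Y463.RW.dia_closed O hO w hw, fun k i x hx => permW_tw i x hx, ?_⟩
  obtain ⟨C, hC, h⟩ := LO hm
  refine ⟨C, hC, ?_, ?_⟩
  · intro O Y k i μ ε hε u hu
    refine (prob_mono μ _ _ (fun x _ hx => ?_)).trans (h O Y.D.fPoly k i μ ε hε u hu)
    by_contra hne
    apply hx
    refine sep_tw (by omega) O i x Y _ ?_ hne
    have h1 := nt_gen Y k
    have h2 : 2 * (Y.D.crossings.length + 2 * Nat.card Y.P) + 1 = 
      2 * Y.D.crossings.length + 4 * Nat.card Y.P + 1 := by ring
    rw [h2] at h1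
    omega
  · intro M k B O i μ ε hε hB u hu
    refine probT_union μ (fun a b x y => 
      ¬ Separated (2 * B) (diaW (O a) (tw (i a) x)) (diaW (O b) (tw (i b) y))) _ (by positivity) ?_
    intro a b _ y
    refine (prob_mono (μ a) _ _ (fun x _ hx => ?_)).trans 
      (h (O a) (dia (O b) (tw (i b) y)).fPoly k (i a) (μ a) ε hε u (hu a))
    by_contra hne
    apply hx
    refine sep_tw (by omega) (O a) (i a) x (diaW (O b) (tw (i b) y)) _ ?_ hne
    have h1 := nt_dia (by omega) (O b) (i b) y
    have h2 := hB a
    have h3 := hB b
    omega

end Pool.Agent.Results.MP_31fd3b_gt.RandomTwistTuples
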