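import Pool.Agent.X130.SD.I

/-!
# Vassiliev invariants recover the reduced state graph's cycle number of strongly dominated states

Diagrams: `Pool.Agent.H891R2.Jones.Diagram` (`Diagram`: oriented link diagrams with marked points;
`Diagram.IsClosed`: the directions fit together; `Diagram.writhe`) and `Pool.Agent.H891R2.MT.Defs`
(`Ribbon k`: a ribbon graph with `k` edges; `Ribbon.Planar`: connected and planar; `Γ.link (sg R)`: the
link diagram with Tait graph `Γ` and one crossing at every edge, of the kind `-1` for the edges in `R` and
`1` for the others; every connected link diagram with at least one crossing is of this form;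
`Orients D U`: `D` is the unoriented diagram `U` with directions).

States: `Pool.Agent.H891R2.DS.Defs` (a state is a set `S` of edges, the bands of `Γ` which are kept in the
smoothing; `Asm R S`: the crossings which have the `A`-smoothing in the state `S`; `stateGraph Γ S`: its
vertices are the circles of `S`, and every crossing is an edge between the circles which it touches;
`EvenSet G X`: `X` is a union of edge-disjoint cycles of `G`).  `Pool.Agent.X130.SD`: `SDom G M`: every
nonempty even subgraph `X` of `G` has at least two more edges outside `M` than in `M`, and at least three
more if it contains an edge of `M`; `redEdges G`: the number of the pairs of vertices of `G` joined by an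
edge; `StateDiagram`: a closed oriented diagram `D` of this form with a state `S`; `BDominated`: `SDom` for
the state graph and the set of the `A`-smoothed crossings; `ADominated`: `SDom` for the set of the
`B`-smoothed crossings; `cycles`: the number `redEdges + 1 - verts` of independent cycles of the reduced
state graph; `lowest`: `6 m - k - 2 v + 2 - 3 w` with the number `m` of `A`-smoothings, the number `k` of
crossings, the number `v` of circles of the state and the writhe `w`; `highest`:
`k + 2 v - 2 - 6 m' - 3 w` with the number `m'` of `B`-smoothings.

Vassiliev invariants: `Pool.Agent.H832R3.VJ.Defs` (`Dia`: an oriented diagram with the finite set of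
its marked points; `IsVassiliev n v`: `v` is an invariant of oriented links of order at most `n`;
`Separated d X Y`: some integer valued Vassiliev invariant of order at most `d` has different values on
`X` and `Y`).
-/

set_option autoImplicit false

namespace Pool.Agent.Results.MP_31fd3b_gt.SemiDominatedPairs

open Pool.Agent.H832R3.VJ Pool.Agent.X130.SD

/-- Let `D`, `D'` be connected oriented link diagrams with `k`, `k'` crossings, and `S`, `S'` states of
them.

* If in the state graphs of both states every cycle has at least two more `B`-smoothed than `A`-smoothed
  crossings, and at least three more if it contains an `A`-smoothed crossing (for instance, if `D` and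
  `D'` are `B`-adequate), and if no Vassiliev invariant of order at most `k + k' + 1` separates `D` from
  `D'`, then the reduced state graphs have the same number of independent cycles, and
  `6 m - k - 2 v - 3 w` is the same number for both.
* The same holds with `A` and `B` exchanged, with `k + 2 v - 6 m' - 3 w` in the place of
  `6 m - k - 2 v - 3 w`. -/
theorem result (X Y : StateDiagram) :
    (X.BDominated → Y.BDominated → ¬ Separated (X.k + Y.k + 1) X.dia Y.dia →
      X.cycles = Y.cycles ∧ X.lowest = Y.lowest) ∧
    (X.ADominated → Y.ADominated → ¬ Separated (X.k + Y.k + 1) X.dia Y.dia →
      X.cycles = Y.cycles ∧ X.highest = Y.highest) := by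
  refine ⟨fun hX hY h => ⟨?_, ?_⟩, fun hX hY h => ⟨?_, ?_⟩⟩
  · by_contra hne
    exact h (StateDiagram.sepB X Y hX hY (Or.inr hne))
  · by_contra hne
    exact h (StateDiagram.sepB X Y hX hY (Or.inl hne))
  · by_contra hne
    exact h (StateDiagram.sepA X Y hX hY (Or.inr hne))
  · by_contra hne
    exact h (StateDiagram.sepA X Y hX hY (Or.inl hne))

end Pool.Agent.Results.MP_31fd3b_gt.SemiDominatedPairs
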